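import Pool.Agent.helper47.MSW.SpecA
import Pool.Agent.helper47.MSW.SpecD
import Pool.Agent.helper71.DSW.SpecB

/-! # MP_a87880, row msw:LNW -/

set_option autoImplicit false

namespace Pool.Agent.MSW

open Equiv Finset Function MeasureTheory Pool.Agent.helper48.PP
open Pool.Agent.DSW (Pr Has GP wt)
open scoped ENNReal Classical

lemma LNW_count {k l : ℕ} (σ : Perm (Fin k)) (τ : Perm (Fin l)) (n : ℕ)
    (h : avCount n τ ≤ avCount n σ) :
    (Finset.univ.filter fun w : Perm (Fin n) => Contains w σ).card ≤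
      (Finset.univ.filter fun w : Perm (Fin n) => Contains w τ).card := by
  have h1 : ∀ (m : ℕ) (p : Perm (Fin m)),
      (Finset.univ.filter fun w : Perm (Fin n) => Contains w p).card + avCount n p =
        (Finset.univ : Finset (Perm (Fin n))).card := by
    intro m p
    unfold avCount
    exact Finset.card_filter_add_card_filter_not _
  have h2 := h1 k σ
  have h3 := h1 l τ
  omega

lemma LNW_Pr {γ : Type} (C : Finset γ) (p : ℝ) (A : Finset γ → Prop) [DecidablePred A] :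
    Pr C p A = ∑ S ∈ C.powerset.filter A, p ^ S.card * (1 - p) ^ (C.card - S.card) := by
  unfold Pr
  apply Finset.sum_congr _ (fun _ _ => rfl)
  ext S
  simp only [Finset.mem_filter]

/-- the number of the sets in general position with `n` points and the pattern, `0` for `n ∉ W` -/
noncomputable def LNW_c {k : ℕ} (τ : Perm (Fin k)) (M M' : ℕ) (W : Set ℕ) (n : ℕ) : ℝ :=
  if n ∈ W then (((Finset.range M ×ˢ Finset.range M').powerset.filter
          fun S => GP S ∧ S.card = n ∧ Has τ S).card : ℝ) else 0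

lemma LNW_fib {k : ℕ} (τ : Perm (Fin k)) (M M' : ℕ) (W : Set ℕ) (p : ℝ) :
    Pr (Finset.range M ×ˢ Finset.range M') p (fun S => GP S ∧ (Has τ S ∧ S.card ∈ W)) =
      ∑ n ∈ Finset.range (M * M' + 1), p ^ n * (1 - p) ^ (M * M' - n) * LNW_c τ M M' W n := by
  have hc : (Finset.range M ×ˢ Finset.range M').card = M * M' := by
    rw [Finset.card_product, Finset.card_range, Finset.card_range]
  rw [LNW_Pr, hc, ← Finset.sum_fiberwise_of_maps_to (g := Finset.card) (t := Finset.range (M * M' + 1))]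
  · apply Finset.sum_congr rfl
    intro n _
    unfold LNW_c
    by_cases hn : n ∈ W
    · rw [if_pos hn]
      have e : (((Finset.range M ×ˢ Finset.range M').powerset.filter
          (fun S => GP S ∧ (Has τ S ∧ S.card ∈ W))).filter fun S => S.card = n) =
          (Finset.range M ×ˢ Finset.range M').powerset.filter
            fun S => GP S ∧ S.card = n ∧ Has τ S := by
        rw [Finset.filter_filter]
        apply Finset.filter_congr
        intro S _
        constructor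
        · rintro ⟨⟨h1, h2, h3⟩, h4⟩
          exact ⟨h1, h4, h2⟩
        · rintro ⟨h1, h2, h3⟩
          exact ⟨⟨h1, h3, by rw [h2]; exact hn⟩, h2⟩
      rw [e, Finset.sum_congr rfl (g := fun _ => p ^ n * (1 - p) ^ (M * M' - n))
        (fun S hS => by rw [(Finset.mem_filter.1 hS).2.2.1]), Finset.sum_const, nsmul_eq_mul,
        mul_comm]
    · rw [if_neg hn, mul_zero]
      apply Finset.sum_eq_zero
      intro S hS
      exfalso
      have h1 := Finset.mem_filter.1 hS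
      have h2 := (Finset.mem_filter.1 h1.1).2.2.2
      rw [h1.2] at h2
      exact hn h2
  · intro S hS
    have h1 := Finset.mem_powerset.1 (Finset.mem_filter.1 hS).1
    have h2 := Finset.card_le_card h1
    rw [hc] at h2
    rw [Finset.mem_range]
    omega

lemma LNW_real (hGPC : Pool.Agent.DSW.GPC_stmt) {k l : ℕ} (σ : Perm (Fin k)) (τ : Perm (Fin l)) (W : Set ℕ)
    (h : ∀ n ∈ W, avCount n τ ≤ avCount n σ) (M M' : ℕ) (p : ℝ) (h0 : 0 ≤ p) (h1 : p ≤ 1) :
    Pr (Finset.range M ×ˢ Finset.range M') p (fun S => Has σ S ∧ S.card ∈ W) ≤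
      Pr (Finset.range M ×ˢ Finset.range M') p (fun S => Has τ S ∧ S.card ∈ W) +
      Pr (Finset.range M ×ˢ Finset.range M') p (fun S => ¬ GP S) := by
  have hq : 0 ≤ 1 - p := by linarith
  have step1 : Pr (Finset.range M ×ˢ Finset.range M') p (fun S => Has σ S ∧ S.card ∈ W) ≤
      Pr (Finset.range M ×ˢ Finset.range M') p (fun S => GP S ∧ (Has σ S ∧ S.card ∈ W)) +
      Pr (Finset.range M ×ˢ Finset.range M') p (fun S => ¬ GP S) := by
    unfold Pr
    rw [Finset.sum_filter, Finset.sum_filter, Finset.sum_filter, ← Finset.sum_add_distrib]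
    apply Finset.sum_le_sum
    intro S _
    have hW : 0 ≤ p ^ S.card * (1 - p) ^ ((Finset.range M ×ˢ Finset.range M').card - S.card) :=
      mul_nonneg (pow_nonneg h0 _) (pow_nonneg hq _)
    by_cases hg : GP S
    · by_cases ht : Has σ S ∧ S.card ∈ W
      · rw [if_pos ht, if_pos ⟨hg, ht⟩, if_neg (not_not.2 hg), add_zero]
      · rw [if_neg ht, if_neg (fun h => ht h.2), if_neg (not_not.2 hg), add_zero]
    · rw [if_neg (fun h : GP S ∧ (Has σ S ∧ S.card ∈ W) => hg h.1), if_pos hg, zero_add]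
      split_ifs
      · exact le_refl _
      · exact hW
  have step2 : Pr (Finset.range M ×ˢ Finset.range M') p (fun S => GP S ∧ (Has σ S ∧ S.card ∈ W)) ≤
      Pr (Finset.range M ×ˢ Finset.range M') p (fun S => GP S ∧ (Has τ S ∧ S.card ∈ W)) := by
    rw [LNW_fib, LNW_fib]
    apply Finset.sum_le_sum
    intro n _
    apply mul_le_mul_of_nonneg_left _ (mul_nonneg (pow_nonneg h0 _) (pow_nonneg hq _))
    unfold LNW_c
    by_cases hn : n ∈ W
    · rw [if_pos hn, if_pos hn, hGPC, hGPC]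
      exact_mod_cast Nat.mul_le_mul_left _ (LNW_count σ τ n (h n hn))
    · rw [if_neg hn, if_neg hn]
  have step3 : Pr (Finset.range M ×ˢ Finset.range M') p (fun S => GP S ∧ (Has τ S ∧ S.card ∈ W)) ≤
      Pr (Finset.range M ×ˢ Finset.range M') p (fun S => Has τ S ∧ S.card ∈ W) := by
    rw [LNW_Pr, LNW_Pr]
    apply Finset.sum_le_sum_of_subset_of_nonneg
    · intro S hS
      rw [Finset.mem_filter] at hS ⊢
      exact ⟨hS.1, hS.2.2⟩
    · intro S _ _
      exact mul_nonneg (pow_nonneg h0 _) (pow_nonneg hq _)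
  linarith

lemma LNW_box (w : Pt) : box 0 w = Finset.range w.1 ×ˢ Finset.range w.2 := by
  unfold box
  rw [Finset.range_eq_Ico, Finset.range_eq_Ico]
  rfl

lemma LNW_HP {k : ℕ} (σ : Perm (Fin k)) (ω : Om) (w : Pt) : HP σ ω 0 w ↔ Has σ (tr ω 0 w) := by
  constructor
  · rintro ⟨-, x, y, hx, hy, h⟩
    refine ⟨x, y, hx, hy, fun j => ?_⟩
    unfold tr
    rw [Finset.mem_filter, mem_box]
    obtain ⟨h1, ⟨h2, h3⟩, -⟩ := h j
    obtain ⟨-, -, h4, h5⟩ := h (σ j)
    exact ⟨⟨⟨h2, h4⟩, h3, h5⟩, h1⟩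
  · rintro ⟨x, y, hx, hy, h⟩
    refine ⟨⟨Nat.zero_le _, Nat.zero_le _⟩, x, y, hx, hy, fun j => ?_⟩
    have h1 := h j
    have h2 := h (σ.symm j)
    unfold tr at h1 h2
    rw [Finset.mem_filter, mem_box] at h1 h2
    rw [Equiv.apply_symm_apply] at h2
    exact ⟨h1.2, ⟨h1.1.1.1, h1.1.2.1⟩, h2.1.1.2, h2.1.2.2⟩

lemma LNW_pm (hMUM : MUM_stmt) (p : ℝ) (h0 : 0 ≤ p) (h1 : p ≤ 1) (w : Pt) (Q : Finset Pt → Prop) :
    Pm p {ω | Q (tr ω 0 w)} = ENNReal.ofReal (Pr (Finset.range w.1 ×ˢ Finset.range w.2) p Q) := by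
  rw [(hMUM p (box 0 w) _ h0 h1 (Dep.tr 0 w Q)).2, LNW_box]
  congr 1
  unfold Pr
  apply Finset.sum_congr _ (fun _ _ => rfl)
  apply Finset.filter_congr
  intro S hS
  have hS' : S ⊆ box 0 w := by
    rw [LNW_box]
    exact Finset.mem_powerset.1 hS
  have e : tr (ind S) 0 w = S := by
    unfold tr ind
    ext c
    rw [Finset.mem_filter, decide_eq_true_iff]
    exact ⟨fun h => h.2, fun h => ⟨hS' h, h⟩⟩
  show Q (tr (ind S) 0 w) ↔ Q S
  rw [e]

theorem LNW (hMUM : MUM_stmt) (hGPE : GPE_stmt) (hGEW : GEW_stmt) (hGPC : Pool.Agent.DSW.GPC_stmt) : LNW_stmt := by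
  intro k l σ τ W h H θ hH hθ0 hθ1
  have hH0 : (1 : ℝ) ≤ (H : ℝ) ^ 2 := by
    have : (1 : ℝ) ≤ (H : ℝ) := by exact_mod_cast hH
    nlinarith
  have hp0 : 0 ≤ den θ H := by
    unfold den
    positivity
  have hp1 : den θ H ≤ 1 := by
    unfold den
    rw [div_le_one (by linarith)]
    linarith
  have key : ∀ w : Pt, Pm (den θ H) {ω | HP σ ω 0 w ∧ (tr ω 0 w).card ∈ W} ≤
      Pm (den θ H) {ω | HP τ ω 0 w ∧ (tr ω 0 w).card ∈ W} + Pm (den θ H) {ω | ¬ GP (tr ω 0 w)} := by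
    intro w
    have e1 : {ω | HP σ ω 0 w ∧ (tr ω 0 w).card ∈ W} =
        {ω : Om | (fun S => Has σ S ∧ S.card ∈ W) (tr ω 0 w)} := by
      ext ω
      show (HP σ ω 0 w ∧ (tr ω 0 w).card ∈ W) ↔ (Has σ (tr ω 0 w) ∧ (tr ω 0 w).card ∈ W)
      rw [LNW_HP]
    have e2 : {ω | HP τ ω 0 w ∧ (tr ω 0 w).card ∈ W} =
        {ω : Om | (fun S => Has τ S ∧ S.card ∈ W) (tr ω 0 w)} := by
      ext ω
      show (HP τ ω 0 w ∧ (tr ω 0 w).card ∈ W) ↔ (Has τ (tr ω 0 w) ∧ (tr ω 0 w).card ∈ W)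
      rw [LNW_HP]
    have q1 : Pm (den θ H) {ω | HP σ ω 0 w ∧ (tr ω 0 w).card ∈ W} =
        ENNReal.ofReal (Pr (Finset.range w.1 ×ˢ Finset.range w.2) (den θ H) fun S => Has σ S ∧ S.card ∈ W) := by
      rw [e1]
      exact LNW_pm hMUM (den θ H) hp0 hp1 w (fun S => Has σ S ∧ S.card ∈ W)
    have q2 : Pm (den θ H) {ω | HP τ ω 0 w ∧ (tr ω 0 w).card ∈ W} =
        ENNReal.ofReal (Pr (Finset.range w.1 ×ˢ Finset.range w.2) (den θ H) fun S => Has τ S ∧ S.card ∈ W) := by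
      rw [e2]
      exact LNW_pm hMUM (den θ H) hp0 hp1 w (fun S => Has τ S ∧ S.card ∈ W)
    have q3 : Pm (den θ H) {ω | ¬ GP (tr ω 0 w)} =
        ENNReal.ofReal (Pr (Finset.range w.1 ×ˢ Finset.range w.2) (den θ H) fun S => ¬ GP S) :=
      LNW_pm hMUM (den θ H) hp0 hp1 w (fun S => ¬ GP S)
    rw [q1, q2, q3]
    exact (ENNReal.ofReal_le_ofReal (LNW_real hGPC σ τ W h w.1 w.2 _ hp0 hp1)).trans
      ENNReal.ofReal_add_le
  unfold ZW
  calc ∑' w : Pt, wt H w.1 * wt H w.2 * Pm (den θ H) {ω | HP σ ω 0 w ∧ (tr ω 0 w).card ∈ W}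
      ≤ ∑' w : Pt, (wt H w.1 * wt H w.2 * Pm (den θ H) {ω | HP τ ω 0 w ∧ (tr ω 0 w).card ∈ W} +
          wt H w.1 * wt H w.2 * Pm (den θ H) {ω | ¬ GP (tr ω 0 w)}) := by
        refine ENNReal.tsum_le_tsum fun w => ?_
        rw [← mul_add]
        exact mul_le_mul' le_rfl (key w)
    _ = ∑' w : Pt, wt H w.1 * wt H w.2 * Pm (den θ H) {ω | HP τ ω 0 w ∧ (tr ω 0 w).card ∈ W} +
          ∑' w : Pt, wt H w.1 * wt H w.2 * Pm (den θ H) {ω | ¬ GP (tr ω 0 w)} := ENNReal.tsum_add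
    _ ≤ _ := add_le_add le_rfl (hGPE H θ hH hθ0 hθ1).1

end Pool.Agent.MSW
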